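import Pool.Agent.MP_66cee2_co.H75.Van

/-
Cosine transforms of the weights `(1 - u^2)^m` on `[-1, 1]`: the derivative chain, and the
vanishing of every even polynomial weight of degree at most `2 l`.
-/

namespace Pool.Agent.MP_66cee2_co.H75

open Set MeasureTheory

/-- the cosine transform of `(1 - u^2)^m`. -/
noncomputable def Ph (m : ℕ) (s : ℝ) : ℝ :=
  ∫ u in (-1 : ℝ)..1, Real.cos (s * u) * (1 - u ^ 2) ^ m

/-- the derivative of `Ph m`. -/
noncomputable def Ps (m : ℕ) (s : ℝ) : ℝ :=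
  ∫ u in (-1 : ℝ)..1, -Real.sin (s * u) * u * (1 - u ^ 2) ^ m

theorem wt_le (m : ℕ) (u : ℝ) (hu : u ∈ uIoc (-1 : ℝ) 1) :
    |u| ≤ 1 ∧ |(1 - u ^ 2) ^ m| ≤ 1 := by
  rw [uIoc_of_le (by norm_num)] at hu
  have h1 : |u| ≤ 1 := abs_le.2 ⟨hu.1.le, hu.2⟩
  have h2 : u ^ 2 ≤ 1 := by nlinarith [hu.1, hu.2]
  refine ⟨h1, ?_⟩
  rw [abs_pow]
  refine pow_le_one₀ (abs_nonneg _) (abs_le.2 ⟨by linarith, by nlinarith [sq_nonneg u]⟩)

theorem abs_Ph (m : ℕ) (s : ℝ) : |Ph m s| ≤ 2 := by
  have := intervalIntegral.norm_integral_le_of_norm_le_const (a := (-1 : ℝ)) (b := 1) (C := 1)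
    (f := fun u => Real.cos (s * u) * (1 - u ^ 2) ^ m) (fun u hu => by
      rw [Real.norm_eq_abs, abs_mul]
      exact mul_le_one₀ (Real.abs_cos_le_one _) (abs_nonneg _) (wt_le m u hu).2)
  rw [Real.norm_eq_abs] at this
  refine this.trans ?_
  norm_num

theorem hasDerivAt_Ph (m : ℕ) (s : ℝ) : HasDerivAt (Ph m) (Ps m s) s := by
  refine (intervalIntegral.hasDerivAt_integral_of_dominated_loc_of_deriv_le (μ := volume)
    (F := fun s u => Real.cos (s * u) * (1 - u ^ 2) ^ m)
    (F' := fun s u => -Real.sin (s * u) * u * (1 - u ^ 2) ^ m) (bound := fun _ => 1)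
    (s := univ) Filter.univ_mem ?_ ?_ ?_ ?_ ?_ ?_).2
  · exact Filter.Eventually.of_forall fun x =>
      (Continuous.aestronglyMeasurable (by fun_prop))
  · exact Continuous.intervalIntegrable (by fun_prop) _ _
  · exact Continuous.aestronglyMeasurable (by fun_prop)
  · refine Filter.Eventually.of_forall fun u hu x _ => ?_
    rw [Real.norm_eq_abs, abs_mul, abs_mul, abs_neg]
    exact mul_le_one₀ (mul_le_one₀ (Real.abs_sin_le_one _) (abs_nonneg _) (wt_le m u hu).1)
      (abs_nonneg _) (wt_le m u hu).2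
  · exact intervalIntegrable_const
  · refine Filter.Eventually.of_forall fun u _ x _ => ?_
    have := ((hasDerivAt_mul_const u (x := x)).cos).mul_const ((1 - u ^ 2) ^ m)
    exact this

theorem continuous_Ph (m : ℕ) : Continuous (Ph m) :=
  continuous_iff_continuousAt.2 fun s => (hasDerivAt_Ph m s).continuousAt

theorem parts (m : ℕ) (s : ℝ) :
    (2 * m + 3) * Ph (m + 1) s + s * Ps (m + 1) s = 2 * (m + 1) * Ph m s := by
  have h := intervalIntegral.integral_eq_sub_of_hasDerivAt (a := (-1 : ℝ)) (b := 1)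
    (f := fun u => u * (1 - u ^ 2) ^ (m + 1) * Real.cos (s * u))
    (f' := fun u => (2 * m + 3) * (Real.cos (s * u) * (1 - u ^ 2) ^ (m + 1)) +
      s * (-Real.sin (s * u) * u * (1 - u ^ 2) ^ (m + 1)) -
      2 * (m + 1) * (Real.cos (s * u) * (1 - u ^ 2) ^ m))
    (fun u _ => by
      have h1 := ((hasDerivAt_id u).mul
        ((((hasDerivAt_id u).pow 2).const_sub 1).pow (m + 1))).mul
        ((hasDerivAt_id u).const_mul s).cos
      refine HasDerivAt.congr_deriv h1 ?_
      simp only [id, Pi.mul_apply, Pi.pow_apply, Nat.add_sub_cancel]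
      push_cast
      ring)
    (Continuous.intervalIntegrable (by fun_prop) _ _)
  rw [intervalIntegral.integral_sub (Continuous.intervalIntegrable (by fun_prop) _ _)
    (Continuous.intervalIntegrable (by fun_prop) _ _),
    intervalIntegral.integral_add (Continuous.intervalIntegrable (by fun_prop) _ _)
    (Continuous.intervalIntegrable (by fun_prop) _ _), intervalIntegral.integral_const_mul,
    intervalIntegral.integral_const_mul, intervalIntegral.integral_const_mul] at h
  simp only [even_two, Even.neg_pow, one_pow, sub_self, ne_eq, Nat.add_eq_zero_iff, one_ne_zero,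
    and_false, not_false_eq_true, zero_pow, mul_zero, zero_mul] at h
  unfold Ph Ps
  linarith

theorem hasDerivAt_pt (m : ℕ) (k t : ℝ) :
    HasDerivAt (fun t => t ^ (2 * (m + 1) + 1) * Ph (m + 1) (k * t))
      (2 * (m + 1) * t * (t ^ (2 * m + 1) * Ph m (k * t))) t := by
  have h1 : HasDerivAt (fun t => Ph (m + 1) (k * t)) (Ps (m + 1) (k * t) * k) t := by
    have := (hasDerivAt_Ph (m + 1) (k * t)).comp t ((hasDerivAt_id t).const_mul k)
    rw [mul_one] at this
    exact this
  have h2 := (hasDerivAt_pow (2 * (m + 1) + 1) t).mul h1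
  refine HasDerivAt.congr_deriv h2 ?_
  have h3 := parts m (k * t)
  rw [Nat.add_sub_cancel]
  push_cast
  have e : (2 * ((m : ℝ) + 1) + 1) * t ^ (2 * (m + 1)) * Ph (m + 1) (k * t) +
      t ^ (2 * (m + 1) + 1) * (Ps (m + 1) (k * t) * k) =
      t ^ (2 * (m + 1)) * ((2 * m + 3) * Ph (m + 1) (k * t) + k * t * Ps (m + 1) (k * t)) := by
    ring
  rw [e, h3]
  ring

variable {Ω : Type*} [MeasurableSpace Ω]

/-- the weighted average of the chain. -/
noncomputable def Av (ν : Measure Ω) (w k : Ω → ℝ) (m : ℕ) (t : ℝ) : ℝ :=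
  ∫ x, w x * (t ^ (2 * m + 1) * Ph m (k x * t)) ∂ν

theorem meas_pt (ν : Measure Ω) (k : Ω → ℝ) (hk : AEStronglyMeasurable k ν) (m : ℕ) (t : ℝ) :
    AEStronglyMeasurable (fun x => Ph m (k x * t)) ν :=
  (continuous_Ph m).comp_aestronglyMeasurable (hk.mul_const t)

theorem int_pt (ν : Measure Ω) (w k : Ω → ℝ) (hw : Integrable w ν)
    (hk : AEStronglyMeasurable k ν) (m : ℕ) (t : ℝ) :
    Integrable (fun x => w x * Ph m (k x * t)) ν :=
  hw.mul_bdd (c := 2) (meas_pt ν k hk m t) (Filter.Eventually.of_forall fun _ => abs_Ph m _)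

theorem Av_eq (ν : Measure Ω) (w k : Ω → ℝ) (m : ℕ) (t : ℝ) :
    Av ν w k m t = t ^ (2 * m + 1) * ∫ x, w x * Ph m (k x * t) ∂ν := by
  rw [← integral_const_mul]
  exact integral_congr_ae (Filter.Eventually.of_forall fun x => by ring)

theorem hasDerivAt_Av (ν : Measure Ω) (w k : Ω → ℝ) (hw : Integrable w ν)
    (hk : AEStronglyMeasurable k ν) (m : ℕ) (t : ℝ) :
    HasDerivAt (Av ν w k (m + 1)) (2 * (m + 1) * t * Av ν w k m t) t := by
  have hm : (0 : ℝ) ≤ 2 * (m + 1) := by positivity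
  have h := (hasDerivAt_integral_of_dominated_loc_of_deriv_le (μ := ν) (x₀ := t)
    (F := fun t x => w x * (t ^ (2 * (m + 1) + 1) * Ph (m + 1) (k x * t)))
    (F' := fun t x => w x * (2 * (m + 1) * t * (t ^ (2 * m + 1) * Ph m (k x * t))))
    (bound := fun x => ‖w x‖ * (2 * (m + 1) * (|t| + 1) * ((|t| + 1) ^ (2 * m + 1) * 2)))
    (s := Metric.ball t 1) (Metric.ball_mem_nhds t one_pos) ?_ ?_ ?_ ?_ ?_ ?_).2
  · refine HasDerivAt.congr_deriv h ?_
    unfold Av
    rw [← integral_const_mul]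
    exact integral_congr_ae (Filter.Eventually.of_forall fun x => by ring)
  · exact Filter.Eventually.of_forall fun s =>
      hw.1.mul ((meas_pt ν k hk (m + 1) s).const_mul _)
  · refine ((int_pt ν w k hw hk (m + 1) t).const_mul (t ^ (2 * (m + 1) + 1))).congr
      (Filter.Eventually.of_forall fun x => by ring)
  · exact hw.1.mul (((meas_pt ν k hk m t).const_mul _).const_mul _)
  · refine Filter.Eventually.of_forall fun x s hs => ?_
    have h1 : |s| ≤ |t| + 1 := by
      have := abs_sub_abs_le_abs_sub s t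
      rw [Metric.mem_ball, Real.dist_eq] at hs
      linarith
    rw [norm_mul]
    refine mul_le_mul_of_nonneg_left ?_ (norm_nonneg _)
    rw [Real.norm_eq_abs, abs_mul, abs_mul (2 * ((m : ℝ) + 1)), abs_mul (s ^ _), abs_pow,
      abs_of_nonneg hm]
    have h2 := abs_Ph m (k x * s)
    gcongr
  · exact hw.norm.mul_const _
  · exact Filter.Eventually.of_forall fun x s _ => (hasDerivAt_pt m (k x) s).const_mul _

theorem continuous_Av (ν : Measure Ω) (w k : Ω → ℝ) (hw : Integrable w ν)
    (hk : AEStronglyMeasurable k ν) (m : ℕ) : Continuous (Av ν w k m) := by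
  have e : Av ν w k m = fun t => t ^ (2 * m + 1) * ∫ x, w x * Ph m (k x * t) ∂ν :=
    funext (Av_eq ν w k m)
  rw [e]
  refine (continuous_pow _).mul ?_
  refine continuous_of_dominated (bound := fun x => ‖w x‖ * 2)
    (fun t => (int_pt ν w k hw hk m t).1) (fun t => Filter.Eventually.of_forall fun x => ?_)
    (hw.norm.mul_const _) (Filter.Eventually.of_forall fun x => ?_)
  · rw [norm_mul]
    exact mul_le_mul_of_nonneg_left (abs_Ph m _) (norm_nonneg _)
  · exact continuous_const.mul ((continuous_Ph m).comp (continuous_const.mul continuous_id))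

theorem poly_eq (l : ℕ) (r : Polynomial ℝ) (hr : r.natDegree ≤ l) :
    ∃ c : ℕ → ℝ, ∀ s : ℝ, ∫ u in (-1 : ℝ)..1, Real.cos (s * u) * r.eval (u ^ 2) =
      ∑ i ∈ Finset.range (l + 1), c i * Ph i s := by
  have hd : (r.comp (1 - Polynomial.X)).natDegree < l + 1 := by
    have h1 : (1 - Polynomial.X : Polynomial ℝ).natDegree ≤ 1 :=
      (Polynomial.natDegree_sub_le _ _).trans (by simp)
    have h2 := Polynomial.natDegree_comp_le (p := r) (q := 1 - Polynomial.X)
    have h3 := Nat.mul_le_mul hr h1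
    omega
  refine ⟨fun i => (r.comp (1 - Polynomial.X)).coeff i, fun s => ?_⟩
  have e : ∀ u : ℝ, Real.cos (s * u) * r.eval (u ^ 2) = ∑ i ∈ Finset.range (l + 1),
      (r.comp (1 - Polynomial.X)).coeff i * (Real.cos (s * u) * (1 - u ^ 2) ^ i) := by
    intro u
    have h1 := Polynomial.eval_eq_sum_range' hd (1 - u ^ 2)
    rw [Polynomial.eval_comp, Polynomial.eval_sub, Polynomial.eval_one, Polynomial.eval_X,
      sub_sub_cancel] at h1
    rw [h1, Finset.mul_sum]
    exact Finset.sum_congr rfl fun i _ => by ring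
  simp only [e]
  rw [intervalIntegral.integral_finsetSum
    (fun i _ => Continuous.intervalIntegrable (by fun_prop) _ _)]
  exact Finset.sum_congr rfl fun i _ => intervalIntegral.integral_const_mul _ _

/-- flatness of the ball integral at radius one kills every even polynomial weight. -/
theorem der (ν : Measure Ω) (w k : Ω → ℝ) (hw : Integrable w ν) (hk : AEStronglyMeasurable k ν)
    (l : ℕ) (C δ : ℝ) (hδ : 0 < δ)
    (hO : ∀ t ∈ Icc (1 : ℝ) (1 + δ),
      |t ^ (2 * l + 3) * (∫ x, w x * Ph (l + 1) (k x * t) ∂ν) - ∫ x, w x * Ph (l + 1) (k x) ∂ν|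
        ≤ C * (t - 1) ^ (l + 2))
    (r : Polynomial ℝ) (hr : r.natDegree ≤ l) :
    Integrable (fun x => w x * ∫ u in (-1 : ℝ)..1, Real.cos (k x * u) * r.eval (u ^ 2)) ν ∧
    ∫ x, w x * (∫ u in (-1 : ℝ)..1, Real.cos (k x * u) * r.eval (u ^ 2)) ∂ν = 0 := by
  have hv := van (Av ν w k) l C δ hδ (hasDerivAt_Av ν w k hw hk)
    (continuous_Av ν w k hw hk 0).continuousAt (fun t ht => by
      rw [Av_eq, Av_eq]
      simp only [one_pow, one_mul, mul_one]
      exact hO t ht)
  obtain ⟨c, hc⟩ := poly_eq l r hr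
  have hi : ∀ i, Integrable (fun x => c i * (w x * Ph i (k x))) ν := fun i => by
    simpa only [mul_one] using (int_pt ν w k hw hk i 1).const_mul (c i)
  have e : (fun x => w x * ∫ u in (-1 : ℝ)..1, Real.cos (k x * u) * r.eval (u ^ 2)) =
      fun x => ∑ i ∈ Finset.range (l + 1), c i * (w x * Ph i (k x)) := by
    funext x
    rw [hc, Finset.mul_sum]
    exact Finset.sum_congr rfl fun i _ => by ring
  rw [e]
  refine ⟨integrable_finsetSum _ fun i _ => hi i, ?_⟩
  rw [integral_finsetSum _ fun i _ => hi i]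
  refine Finset.sum_eq_zero fun i h => ?_
  have := hv i (by have := Finset.mem_range.1 h; omega)
  rw [Av_eq] at this
  simp only [one_pow, one_mul, mul_one] at this
  rw [integral_const_mul, this, mul_zero]

end Pool.Agent.MP_66cee2_co.H75
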