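import Pool.Agent.MP_66cee2_co.H75.Meh

/-! Log-convexity of the Mehler form, by the semigroup law and Cauchy-Schwarz. -/

namespace H75M

open MeasureTheory Real
open scoped RealInnerProductSpace

variable {d : ℕ}

/-- Bounded measurable functions. -/
def Bd (f : V d → ℝ) : Prop := Measurable f ∧ ∃ M : ℝ, ∀ x, |f x| ≤ M

/-- The Mehler form. -/
noncomputable def ph (s lam : ℝ) (f g : V d → ℝ) : ℝ :=
  ∫ q : V d × V d, K s lam q.1 q.2 * (f q.1 * g q.2) ∂(volume.prod volume)

/-- The Mehler operator, without the division by the density. -/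
noncomputable def T (s lam : ℝ) (f : V d → ℝ) (z : V d) : ℝ := ∫ x, K s lam x z * f x

theorem Bd.prod {f g : V d → ℝ} (hf : Bd f) (hg : Bd g) :
    Measurable (fun q : V d × V d => f q.1 * g q.2) ∧
      ∃ M : ℝ, ∀ q : V d × V d, |f q.1 * g q.2| ≤ M := by
  obtain ⟨mf, M, hM⟩ := hf
  obtain ⟨mg, N, hN⟩ := hg
  refine ⟨(mf.comp measurable_fst).mul (mg.comp measurable_snd), M * N, fun q => ?_⟩
  rw [abs_mul]
  exact mul_le_mul (hM _) (hN _) (abs_nonneg _) ((abs_nonneg _).trans (hM q.1))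

theorem ph_int {s lam : ℝ} (hs : 0 < s) (hl : lam ^ 2 < 1) {f g : V d → ℝ} (hf : Bd f)
    (hg : Bd g) :
    Integrable (fun q : V d × V d => K s lam q.1 q.2 * (f q.1 * g q.2)) (volume.prod volume) := by
  obtain ⟨m, M, hM⟩ := hf.prod hg
  exact (K_int2 hs hl).mul_bdd m.aestronglyMeasurable
    (Filter.Eventually.of_forall fun q => by simpa only [Real.norm_eq_abs] using hM q)

theorem ph_iter {s lam : ℝ} (hs : 0 < s) (hl : lam ^ 2 < 1) {f g : V d → ℝ} (hf : Bd f)
    (hg : Bd g) : ph s lam f g = ∫ x, ∫ y, K s lam x y * (f x * g y) :=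
  integral_prod _ (ph_int hs hl hf hg)

theorem tri_int {s mu nu : ℝ} (hs : 0 < s) (hm : mu ^ 2 < 1) (hn : nu ^ 2 < 1) :
    Integrable (fun w : (V d × V d) × V d => K s mu w.1.1 w.2 * K s nu w.2 w.1.2 / ga s w.2)
      ((volume.prod volume).prod volume) := by
  have c1 : Continuous (fun w : (V d × V d) × V d => K s mu w.1.1 w.2) :=
    (K_cont s mu).comp (f := fun w : (V d × V d) × V d => (w.1.1, w.2)) (by fun_prop)
  have c2 : Continuous (fun w : (V d × V d) × V d => K s nu w.2 w.1.2) :=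
    (K_cont s nu).comp (f := fun w : (V d × V d) × V d => (w.2, w.1.2)) (by fun_prop)
  have c3 : Continuous (fun w : (V d × V d) × V d => ga s w.2) :=
    (ga_cont s).comp continuous_snd
  have hc : Continuous (fun w : (V d × V d) × V d =>
      K s mu w.1.1 w.2 * K s nu w.2 w.1.2 / ga s w.2) :=
    (c1.mul c2).div c3 (fun w => (ga_pos hs w.2).ne')
  rw [integrable_prod_iff hc.aestronglyMeasurable]
  refine ⟨Filter.Eventually.of_forall fun q => KK_int hs hm hn q.1 q.2, ?_⟩
  refine (K_int2 hs (mul_sq_lt hm hn)).congr (Filter.Eventually.of_forall fun q => ?_)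
  simp only
  rw [← K_semi hs hm hn]
  refine integral_congr_ae (Filter.Eventually.of_forall fun z => ?_)
  simp only [Pi.div_apply, Pi.mul_apply, Real.norm_eq_abs]
  exact (abs_of_pos (div_pos (mul_pos (K_pos hs hm _ _) (K_pos hs hn _ _)) (ga_pos hs z))).symm

theorem tri_int' {s mu nu : ℝ} (hs : 0 < s) (hm : mu ^ 2 < 1) (hn : nu ^ 2 < 1)
    {f g : V d → ℝ} (hf : Bd f) (hg : Bd g) :
    Integrable (fun w : (V d × V d) × V d =>
      K s mu w.1.1 w.2 * K s nu w.2 w.1.2 / ga s w.2 * (f w.1.1 * g w.1.2))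
      ((volume.prod volume).prod volume) := by
  obtain ⟨m, M, hM⟩ := hf.prod hg
  exact (tri_int hs hm hn).mul_bdd (m.comp measurable_fst).aestronglyMeasurable
    (Filter.Eventually.of_forall fun w => by simpa only [Real.norm_eq_abs] using hM w.1)

theorem inner_q (s mu nu : ℝ) (f g : V d → ℝ) (z : V d) :
    ∫ q : V d × V d, K s mu q.1 z * K s nu z q.2 / ga s z * (f q.1 * g q.2)
      ∂(volume.prod volume) = T s mu f z * T s nu g z / ga s z := by
  have h : (fun q : V d × V d => K s mu q.1 z * K s nu z q.2 / ga s z * (f q.1 * g q.2))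
      = fun q => (K s mu q.1 z * f q.1) * (K s nu q.2 z * g q.2) / ga s z := by
    funext q
    rw [K_symm s nu z q.2]
    ring
  rw [h, integral_div,
    integral_prod_mul (fun x => K s mu x z * f x) (fun y => K s nu y z * g y)]
  rfl

theorem TT_int {s mu nu : ℝ} (hs : 0 < s) (hm : mu ^ 2 < 1) (hn : nu ^ 2 < 1)
    {f g : V d → ℝ} (hf : Bd f) (hg : Bd g) :
    Integrable (fun z => T s mu f z * T s nu g z / ga s z) := by
  have h := (tri_int' hs hm hn hf hg).integral_prod_right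
  exact h.congr (Filter.Eventually.of_forall fun z => inner_q s mu nu f g z)

/-- The form at a product of parameters is a scalar product. -/
theorem ph_mul {s mu nu : ℝ} (hs : 0 < s) (hm : mu ^ 2 < 1) (hn : nu ^ 2 < 1)
    {f g : V d → ℝ} (hf : Bd f) (hg : Bd g) :
    ph s (mu * nu) f g = ∫ z, T s mu f z * T s nu g z / ga s z := by
  have h := integral_integral_swap
    (f := fun (q : V d × V d) (z : V d) =>
      K s mu q.1 z * K s nu z q.2 / ga s z * (f q.1 * g q.2)) (tri_int' hs hm hn hf hg)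
  simp only [inner_q] at h
  rw [← h]
  unfold ph
  refine integral_congr_ae (Filter.Eventually.of_forall fun q => ?_)
  simp only
  rw [integral_mul_const, K_semi hs hm hn]

theorem ph_nonneg {s mu : ℝ} (hs : 0 < s) (hm : mu ^ 2 < 1) {f : V d → ℝ} (hf : Bd f) :
    0 ≤ ph s (mu ^ 2) f f := by
  rw [sq, ph_mul hs hm hm hf hf]
  exact integral_nonneg fun z => div_nonneg (mul_self_nonneg _) (ga_pos hs z).le

theorem ph_quad {s mu nu : ℝ} (hs : 0 < s) (hm : mu ^ 2 < 1) (hn : nu ^ 2 < 1)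
    {f g : V d → ℝ} (hf : Bd f) (hg : Bd g) (t : ℝ) :
    0 ≤ ph s (nu ^ 2) g g * (t * t) + (2 * ph s (mu * nu) f g) * t + ph s (mu ^ 2) f f := by
  rw [sq, sq, ph_mul hs hm hm hf hf, ph_mul hs hn hn hg hg, ph_mul hs hm hn hf hg]
  have i1 := TT_int hs hm hm hf hf
  have i2 := TT_int hs hn hn hg hg
  have i3 := TT_int hs hm hn hf hg
  have i4 : Integrable (fun z => T s nu g z * T s nu g z / ga s z * (t * t)
      + 2 * (T s mu f z * T s nu g z / ga s z) * t) :=
    (i2.mul_const _).add ((i3.const_mul _).mul_const _)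
  rw [← integral_const_mul, ← integral_mul_const, ← integral_mul_const,
    ← integral_add (i2.mul_const _) ((i3.const_mul _).mul_const _), ← integral_add i4 i1]
  refine integral_nonneg fun z => ?_
  have hz := ga_pos hs z
  have e : T s nu g z * T s nu g z / ga s z * (t * t) + 2 * (T s mu f z * T s nu g z / ga s z) * t
      + T s mu f z * T s mu f z / ga s z = (T s nu g z * t + T s mu f z) ^ 2 / ga s z := by
    ring
  simp only [Pi.add_apply, Pi.zero_apply]
  rw [e]
  positivity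

/-- Cauchy-Schwarz for a finite family. -/
theorem cs_sum {ι : Type*} [Fintype ι] {s mu nu : ℝ} (hs : 0 < s) (hm : mu ^ 2 < 1)
    (hn : nu ^ 2 < 1) {f g : ι → V d → ℝ} (hf : ∀ i, Bd (f i)) (hg : ∀ i, Bd (g i)) :
    (∑ i, ph s (mu * nu) (f i) (g i)) ^ 2
      ≤ (∑ i, ph s (mu ^ 2) (f i) (f i)) * ∑ i, ph s (nu ^ 2) (g i) (g i) := by
  have h : ∀ t : ℝ, 0 ≤ (∑ i, ph s (nu ^ 2) (g i) (g i)) * (t * t)
      + (2 * ∑ i, ph s (mu * nu) (f i) (g i)) * t + ∑ i, ph s (mu ^ 2) (f i) (f i) := by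
    intro t
    rw [Finset.mul_sum, Finset.sum_mul, Finset.sum_mul, ← Finset.sum_add_distrib,
      ← Finset.sum_add_distrib]
    exact Finset.sum_nonneg fun i _ => ph_quad hs hm hn (hf i) (hg i) t
  have := discrim_le_zero h
  unfold discrim at this
  nlinarith

/-- A positive log-convex sequence decays at most geometrically. -/
theorem chain (a : ℕ → ℝ) (k : ℕ) (A B : ℝ) (hA : 0 < A) (hB : 0 < B)
    (h0 : ∀ j, k ≤ j → 0 ≤ a j) (hc : ∀ j, k ≤ j → a (j + 1) ^ 2 ≤ a j * a (j + 2))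
    (h1 : a k ≤ A) (h2 : B ≤ a (k + 1)) (j : ℕ) : B * (B / A) ^ j ≤ a (k + 1 + j) := by
  have hr : 0 < B / A := div_pos hB hA
  have key : ∀ j : ℕ, B * (B / A) ^ j ≤ a (k + 1 + j) ∧ B / A * a (k + j) ≤ a (k + 1 + j) := by
    intro j
    induction j with
    | zero =>
      refine ⟨by simpa using h2, ?_⟩
      simp only [add_zero]
      calc B / A * a k ≤ B / A * A := mul_le_mul_of_nonneg_left h1 hr.le
        _ = B := by field_simp
        _ ≤ a (k + 1) := h2
    | succ j ih =>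
      obtain ⟨i1, i2⟩ := ih
      have hp : 0 < a (k + 1 + j) := lt_of_lt_of_le (by positivity) i1
      have c := hc (k + j) (Nat.le_add_right _ _)
      have e1 : k + j + 1 = k + 1 + j := by ring
      have e2 : k + j + 2 = k + 1 + (j + 1) := by ring
      have e3 : k + (j + 1) = k + 1 + j := by ring
      rw [e1, e2] at c
      have n2 : 0 ≤ a (k + 1 + (j + 1)) := h0 _ (by omega)
      have st : B / A * a (k + 1 + j) ≤ a (k + 1 + (j + 1)) := by
        have u : B / A * a (k + 1 + j) ^ 2 ≤ a (k + 1 + j) * a (k + 1 + (j + 1)) :=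
          calc B / A * a (k + 1 + j) ^ 2 ≤ B / A * (a (k + j) * a (k + 1 + (j + 1))) :=
                mul_le_mul_of_nonneg_left c hr.le
            _ = B / A * a (k + j) * a (k + 1 + (j + 1)) := by ring
            _ ≤ a (k + 1 + j) * a (k + 1 + (j + 1)) := mul_le_mul_of_nonneg_right i2 n2
        have u2 : a (k + 1 + j) * (B / A * a (k + 1 + j))
            ≤ a (k + 1 + j) * a (k + 1 + (j + 1)) := by nlinarith
        exact le_of_mul_le_mul_left u2 hp
      refine ⟨?_, by rw [e3]; exact st⟩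
      calc B * (B / A) ^ (j + 1) = B / A * (B * (B / A) ^ j) := by ring
        _ ≤ B / A * a (k + 1 + j) := mul_le_mul_of_nonneg_left i1 hr.le
        _ ≤ _ := st
  exact (key j).1

theorem pow_sq_lt {kap : ℝ} (h0 : 0 ≤ kap) (h1 : kap < 1) {j : ℕ} (hj : 1 ≤ j) :
    (kap ^ j) ^ 2 < 1 := by
  rw [← pow_mul]
  exact pow_lt_one₀ h0 h1 (by omega)

/-- The chain for the Mehler form of a finite family, at the powers of `lam`. -/
theorem ph_chain {ι : Type*} [Fintype ι] {s lam : ℝ} (hs : 0 < s) (h0 : 0 ≤ lam) (h1 : lam < 1)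
    {f : ι → V d → ℝ} (hf : ∀ i, Bd (f i)) (k : ℕ) (hk : 1 ≤ k) (A B : ℝ) (hA : 0 < A)
    (hB : 0 < B) (hu : ∑ i, ph s (lam ^ k) (f i) (f i) ≤ A)
    (hl : B ≤ ∑ i, ph s (lam ^ (k + 1)) (f i) (f i)) (j : ℕ) :
    B * (B / A) ^ j ≤ ∑ i, ph s (lam ^ (k + 1 + j)) (f i) (f i) := by
  have k0 : 0 ≤ √lam := Real.sqrt_nonneg _
  have k1 : √lam < 1 := by
    rw [Real.sqrt_lt' one_pos]
    simpa using h1
  have e : ∀ j : ℕ, (√lam ^ j) ^ 2 = lam ^ j := by
    intro j
    rw [← pow_mul, mul_comm, pow_mul, Real.sq_sqrt h0]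
  refine chain (fun j => ∑ i, ph s (lam ^ j) (f i) (f i)) k A B hA hB ?_ ?_ hu hl j
  · intro j hj
    refine Finset.sum_nonneg fun i _ => ?_
    rw [← e j]
    exact ph_nonneg hs (pow_sq_lt k0 k1 (by omega)) (hf i)
  · intro j hj
    have c := cs_sum (mu := √lam ^ j) (nu := √lam ^ (j + 2)) hs (pow_sq_lt k0 k1 (by omega))
      (pow_sq_lt k0 k1 (by omega)) hf hf
    have e2 : √lam ^ j * √lam ^ (j + 2) = lam ^ (j + 1) := by
      rw [← e (j + 1)]
      ring
    rw [e, e, e2] at c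
    exact c

end H75M
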