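import Pool.Agent.MP_66cee2_co.B.Spec
import Pool.Agent.MP_66cee2_co.H71.Slice

/-
The cosine transform of a radial function through its marginal on a line.
-/

namespace Pool.Agent.MP_66cee2_co.H75

open MeasureTheory Set Filter Metric Pool.Agent.MP_66cee2_co.X Pool.Agent.MP_66cee2_co.B
open scoped RealInnerProductSpace

theorem polar (l : ℕ) (g : ℝ → ℝ) :
    ∫ y : E (2 * l + 2), g (‖y‖ ^ 2) =
      (l + 1) * volume.real (ball (0 : E (2 * l + 2)) 1) * ∫ s in Ioi (0 : ℝ), s ^ l * g s := by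
  have : Nonempty (Fin (2 * l + 2)) := ⟨⟨0, by omega⟩⟩
  have h := integral_fun_norm_addHaar (volume : Measure (E (2 * l + 2))) (fun r : ℝ => g (r ^ 2))
  rw [finrank_euclideanSpace_fin, nsmul_eq_mul, smul_eq_mul] at h
  have h2 := integral_comp_rpow_Ioi_of_pos (g := fun s : ℝ => s ^ l * g s) (p := 2) two_pos
  have h3 : ∫ x in Ioi (0 : ℝ), ((2 : ℝ) * x ^ ((2 : ℝ) - 1)) •
      ((x ^ (2 : ℝ)) ^ l * g (x ^ (2 : ℝ))) =
      2 * ∫ y in Ioi (0 : ℝ), y ^ (2 * l + 2 - 1) • g (y ^ 2) := by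
    rw [← integral_const_mul]
    refine integral_congr_ae (Eventually.of_forall fun x => ?_)
    have e1 : (2 : ℝ) - 1 = 1 := by norm_num
    simp only [e1, Real.rpow_one, Real.rpow_two, smul_eq_mul]
    rw [show 2 * l + 2 - 1 = 2 * l + 1 by omega, ← pow_mul]
    ring
  rw [h, ← h2, h3]
  push_cast
  ring

theorem rad_int (d : ℕ) (f : ℝ → ℝ) (hf : Continuous f) (R : ℝ) (hR : ∀ s, R ≤ s → f s = 0) :
    Integrable fun w : E d => f (‖w‖ ^ 2) := by
  have hc : Continuous fun w : E d => f (‖w‖ ^ 2) := by fun_prop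
  refine hc.integrable_of_hasCompactSupport
    (HasCompactSupport.intro (isCompact_closedBall 0 (|R| + 1)) fun w hw => hR _ ?_)
  rw [mem_closedBall_zero_iff, not_le] at hw
  nlinarith [le_abs_self R, abs_nonneg R]

theorem marg_zero (l : ℕ) (f : ℝ → ℝ) (hi : Integrable fun w : E (2 * l + 3) => f (‖w‖ ^ 2))
    (k : ℝ) : ∫ w : E (2 * l + 3), f (‖w‖ ^ 2) * Real.cos (k * w 0) =
      (l + 1) * volume.real (ball (0 : E (2 * l + 2)) 1) *
        ∫ u : ℝ, Real.cos (k * u) * ∫ s in Ioi (0 : ℝ), s ^ l * f (u ^ 2 + s) := by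
  have hi1 : Integrable (fun w : E (2 * l + 2 + 1) => f (‖w‖ ^ 2) * Real.cos (k * w 0)) volume :=
    hi.mul_bdd (c := 1) (Continuous.aestronglyMeasurable (by fun_prop))
      (Eventually.of_forall fun _ => Real.abs_cos_le_one _)
  have hi2 := ((H71.cnsE_mp (2 * l + 2)).integrable_comp_emb
    (H71.cnsE (2 * l + 2)).measurableEmbedding).2 hi1
  have e0 := (H71.cnsE_mp (2 * l + 2)).integral_comp'
    (fun w : E (2 * l + 2 + 1) => f (‖w‖ ^ 2) * Real.cos (k * w 0))
  refine e0.symm.trans ((integral_prod _ hi2).trans ?_)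
  rw [← integral_const_mul]
  refine integral_congr_ae (Eventually.of_forall fun u => ?_)
  have e3 : ∀ y : E (2 * l + 2),
      ((fun w : E (2 * l + 2 + 1) => f (‖w‖ ^ 2) * Real.cos (k * w 0)) ∘
        H71.cnsE (2 * l + 2)) (u, y) = f (u ^ 2 + ‖y‖ ^ 2) * Real.cos (k * u) := by
    intro y
    rw [Function.comp_apply, H71.cnsE_apply, H71.cns_zero, H71.cns_norm]
  simp only [e3]
  rw [integral_mul_const, polar l (fun s => f (u ^ 2 + s))]
  ring

theorem marg (l : ℕ) (f : ℝ → ℝ) (hi : Integrable fun w : E (2 * l + 3) => f (‖w‖ ^ 2))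
    (ξ : E (2 * l + 3)) : ct (fun w => f (‖w‖ ^ 2)) ξ =
      (l + 1) * volume.real (ball (0 : E (2 * l + 2)) 1) *
        ∫ u : ℝ, Real.cos (‖ξ‖ * u) * ∫ s in Ioi (0 : ℝ), s ^ l * f (u ^ 2 + s) := by
  rw [← marg_zero l f hi]
  let e0 : E (2 * l + 3) := EuclideanSpace.single 0 ‖ξ‖
  have h0 : ‖e0‖ = ‖ξ‖ := by simp [e0]
  let L := (Submodule.span ℝ {e0 - ξ})ᗮ.reflection
  have hL : L e0 = ξ := Submodule.reflection_sub h0
  have e1 := L.measurePreserving.integral_comp L.toHomeomorph.measurableEmbedding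
    (fun w => f (‖w‖ ^ 2) * Real.cos ⟪ξ, w⟫)
  refine e1.symm.trans (integral_congr_ae (Eventually.of_forall fun w => ?_))
  have e3 : ⟪ξ, L w⟫ = ‖ξ‖ * w 0 := by
    have e4 : ⟪L e0, L w⟫ = ‖ξ‖ * w 0 := by
      rw [L.inner_map_map]
      simp [e0, EuclideanSpace.inner_single_left]
    rwa [hL] at e4
  simp only [e3, L.norm_map]

theorem vol_le (l : ℕ) : volume.real (ball (0 : E (2 * l + 2)) 1) ≤
    (l + 2) * volume.real (ball (0 : E (2 * l + 3)) 1) := by
  have h := H71.slice_zero (2 * l + 2) (by omega) (fun _ => 1) continuous_const 1 one_pos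
  rw [setIntegral_const, smul_eq_mul, mul_one] at h
  have hc : Continuous fun s : ℝ => (1 : ℝ) * √(1 ^ 2 - s ^ 2) ^ (2 * l + 2) := by fun_prop
  have h1 : ∫ s in (0 : ℝ)..1, (1 - s) ^ (l + 1) = 1 / (l + 2) := by
    rw [intervalIntegral.integral_comp_sub_left (fun s : ℝ => s ^ (l + 1)) 1, integral_pow]
    push_cast
    simp only [sub_zero, sub_self, one_pow]
    rw [zero_pow (by omega), sub_zero]
    ring
  have h2 : ∫ s in (0 : ℝ)..1, (1 - s) ^ (l + 1) ≤
      ∫ s in (0 : ℝ)..1, (1 : ℝ) * √(1 ^ 2 - s ^ 2) ^ (2 * l + 2) := by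
    refine intervalIntegral.integral_mono_on zero_le_one
      (Continuous.intervalIntegrable (by fun_prop) _ _) (hc.intervalIntegrable _ _)
      fun s hs => ?_
    have h3 : 0 ≤ 1 ^ 2 - s ^ 2 := by nlinarith [hs.1, hs.2]
    rw [one_mul, show 2 * l + 2 = 2 * (l + 1) by ring, pow_mul, Real.sq_sqrt h3]
    exact pow_le_pow_left₀ (by linarith [hs.2]) (by nlinarith [hs.1, hs.2]) _
  have h4 : ∫ s in (0 : ℝ)..1, (1 : ℝ) * √(1 ^ 2 - s ^ 2) ^ (2 * l + 2) ≤
      ∫ s in (-1 : ℝ)..1, (1 : ℝ) * √(1 ^ 2 - s ^ 2) ^ (2 * l + 2) :=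
    intervalIntegral.integral_mono_interval (by norm_num) zero_le_one le_rfl
      (Eventually.of_forall fun s => by positivity) (hc.intervalIntegrable _ _)
  have hv : 0 ≤ volume.real (ball (0 : E (2 * l + 2)) 1) := measureReal_nonneg
  have h5 := mul_le_mul_of_nonneg_left ((h1.symm.le.trans h2).trans h4) hv
  have hl : (0 : ℝ) < l + 2 := by positivity
  rw [mul_one_div, div_le_iff₀ hl] at h5
  refine h5.trans (le_of_eq ?_)
  rw [mul_comm]
  exact congrArg _ h.symm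

end Pool.Agent.MP_66cee2_co.H75
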