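import Pool.Agent.MP_66cee2_co.B.Spec

/-
The square of the cosine transform of a truncated even polynomial is, up to a bounded error,
the cosine transform of an even polynomial density on `[-1, 1]`.
-/

namespace Pool.Agent.MP_66cee2_co.H75

open MeasureTheory Set Polynomial Function Pool.Agent.MP_66cee2_co.B

theorem tri (F : ℝ → ℝ → ℝ) (hF : Continuous (uncurry F)) :
    ∫ x in (0 : ℝ)..1, ∫ y in x..1, F x y = ∫ y in (0 : ℝ)..1, ∫ x in (0 : ℝ)..y, F x y := by
  have hm : MeasurableSet {p : ℝ × ℝ | p.1 < p.2} := measurableSet_lt measurable_fst measurable_snd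
  have hi : Integrable (uncurry fun x y => ({p : ℝ × ℝ | p.1 < p.2}).indicator (uncurry F) (x, y))
      ((volume.restrict (Ioc (0 : ℝ) 1)).prod (volume.restrict (Ioc (0 : ℝ) 1))) := by
    rw [Measure.prod_restrict]
    exact ((hF.continuousOn.integrableOn_compact (isCompact_Icc.prod isCompact_Icc)).mono_set
      (prod_mono Ioc_subset_Icc_self Ioc_subset_Icc_self)).indicator hm
  have h := integral_integral_swap hi
  rw [intervalIntegral.integral_of_le zero_le_one, intervalIntegral.integral_of_le zero_le_one]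
  refine (setIntegral_congr_fun measurableSet_Ioc fun x hx => ?_).trans
    (h.trans (setIntegral_congr_fun measurableSet_Ioc fun y hy => ?_))
  · have e : ∀ y, ({p : ℝ × ℝ | p.1 < p.2}).indicator (uncurry F) (x, y) =
        (Ioi x).indicator (F x) y := fun y => rfl
    simp only [e]
    rw [setIntegral_indicator measurableSet_Ioi, Ioc_inter_Ioi, sup_eq_right.2 hx.1.le,
      intervalIntegral.integral_of_le hx.2]
  · have e : ∀ x, ({p : ℝ × ℝ | p.1 < p.2}).indicator (uncurry F) (x, y) =
        (Iio y).indicator (fun x => F x y) x := fun x => rfl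
    have e2 : Ioc (0 : ℝ) 1 ∩ Iio y = Ioo 0 y := by
      ext t
      exact ⟨fun h => ⟨h.1.1, h.2⟩, fun h => ⟨⟨h.1, h.2.le.trans hy.2⟩, h.2⟩⟩
    simp only [e]
    rw [setIntegral_indicator measurableSet_Iio, e2, intervalIntegral.integral_of_le hy.1.le,
      integral_Ioc_eq_integral_Ioo]

theorem sq_eq (g : ℝ → ℝ) (hg : Continuous g) (he : ∀ v, g (-v) = g v) (k : ℝ) :
    (∫ v in (-1 / 2 : ℝ)..(1 / 2), Real.cos (k * v) * g v) ^ 2 =
      2 * ∫ u in (0 : ℝ)..1, Real.cos (k * u) * ∫ v in (u - 1 / 2)..(1 / 2), g v * g (u - v) := by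
  have h12 : (-1 / 2 : ℝ) = -(1 / 2) := by norm_num
  rw [h12]
  have hs : ∫ w in (-(1 / 2) : ℝ)..(1 / 2), Real.sin (k * w) * g w = 0 := by
    have h := intervalIntegral.integral_comp_neg (a := -(1 / 2)) (b := (1 / 2 : ℝ))
      (fun w => Real.sin (k * w) * g w)
    simp only [mul_neg, Real.sin_neg, he, neg_mul, neg_neg, intervalIntegral.integral_neg] at h
    linarith
  have hc : ∀ v, Continuous fun w => Real.cos (k * (v + w)) * g w := fun v => by fun_prop
  have h1 : ∀ v, Real.cos (k * v) * ∫ w in (-(1 / 2) : ℝ)..(1 / 2), Real.cos (k * w) * g w =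
      (∫ w in (-(1 / 2) : ℝ)..(-v), Real.cos (k * (v + w)) * g w) +
        ∫ w in (-v)..(1 / 2), Real.cos (k * (v + w)) * g w := by
    intro v
    rw [intervalIntegral.integral_add_adjacent_intervals ((hc v).intervalIntegrable _ _)
      ((hc v).intervalIntegrable _ _)]
    have e : ∀ w, Real.cos (k * (v + w)) * g w = Real.cos (k * v) * (Real.cos (k * w) * g w) -
        Real.sin (k * v) * (Real.sin (k * w) * g w) := fun w => by
      rw [mul_add, Real.cos_add]
      ring
    simp only [e]
    rw [intervalIntegral.integral_sub (Continuous.intervalIntegrable (by fun_prop) _ _)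
      (Continuous.intervalIntegrable (by fun_prop) _ _), intervalIntegral.integral_const_mul,
      intervalIntegral.integral_const_mul, hs, mul_zero, sub_zero]
  set J : ℝ → ℝ := fun v => ∫ x in (0 : ℝ)..(v + 1 / 2), Real.cos (k * x) * g (x - v) with hJ
  have h2 : ∀ v, ∫ w in (-v)..(1 / 2), Real.cos (k * (v + w)) * g w = J v := by
    intro v
    have h := intervalIntegral.integral_comp_add_left (a := -v) (b := 1 / 2)
      (fun x => Real.cos (k * x) * g (x - v)) v
    simp only [add_sub_cancel_left, add_neg_cancel] at h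
    exact h
  have h3 : ∀ v, ∫ w in (-(1 / 2) : ℝ)..(-v), Real.cos (k * (v + w)) * g w = J (-v) := by
    intro v
    rw [← h2, ← intervalIntegral.integral_comp_neg (fun w => Real.cos (k * (v + w)) * g w), neg_neg]
    refine intervalIntegral.integral_congr fun w _ => ?_
    simp only [he]
    rw [← Real.cos_neg]
    congr 2
    ring
  have hJc : Continuous J :=
    intervalIntegral.continuous_parametric_intervalIntegral_of_continuous
      (f := fun v x => Real.cos (k * x) * g (x - v)) (by unfold uncurry; fun_prop) (by fun_prop)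
  have h4 : ∫ v in (-(1 / 2) : ℝ)..(1 / 2), g v * J (-v) =
      ∫ v in (-(1 / 2) : ℝ)..(1 / 2), g v * J v := by
    have h := intervalIntegral.integral_comp_neg (a := -(1 / 2)) (b := (1 / 2 : ℝ))
      (fun v => g v * J v)
    simpa only [he, neg_neg] using h
  have h5 : ∫ u in (0 : ℝ)..1, Real.cos (k * u) * ∫ v in (u - 1 / 2)..(1 / 2), g v * g (u - v) =
      ∫ v in (-(1 / 2) : ℝ)..(1 / 2), g v * J v := by
    have h := tri (fun x y => g (y - 1 / 2) * (Real.cos (k * x) * g (x - (y - 1 / 2))))
      (by unfold uncurry; fun_prop)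
    have a1 : ∀ x : ℝ, ∫ y in x..1, g (y - 1 / 2) * (Real.cos (k * x) * g (x - (y - 1 / 2))) =
        Real.cos (k * x) * ∫ v in (x - 1 / 2)..(1 / 2), g v * g (x - v) := by
      intro x
      rw [intervalIntegral.integral_comp_sub_right
        (fun v => g v * (Real.cos (k * x) * g (x - v))) (1 / 2), ← intervalIntegral.integral_const_mul,
        show (1 : ℝ) - 1 / 2 = 1 / 2 by norm_num]
      exact intervalIntegral.integral_congr fun v _ => by ring
    have a2 : ∀ y : ℝ, ∫ x in (0 : ℝ)..y,
        g (y - 1 / 2) * (Real.cos (k * x) * g (x - (y - 1 / 2))) =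
        g (y - 1 / 2) * J (y - 1 / 2) := by
      intro y
      rw [intervalIntegral.integral_const_mul, hJ]
      simp only [sub_add_cancel]
    simp only [a1, a2] at h
    rw [h, intervalIntegral.integral_comp_sub_right (fun v => g v * J v) (1 / 2), zero_sub,
      show (1 : ℝ) - 1 / 2 = 1 / 2 by norm_num]
  rw [h5, sq, ← intervalIntegral.integral_mul_const, two_mul]
  nth_rewrite 1 [← h4]
  rw [← intervalIntegral.integral_add (Continuous.intervalIntegrable (by fun_prop) _ _)
    (Continuous.intervalIntegrable (by fun_prop) _ _)]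
  refine intervalIntegral.integral_congr fun v _ => ?_
  have := h1 v
  rw [h2, h3] at this
  linear_combination g v * this

theorem conv_poly (l : ℕ) (Ga : ℝ[X]) (hd : Ga.natDegree ≤ 2 * l)
    (he : ∀ v, Ga.eval (-v) = Ga.eval v) : ∃ r : ℝ[X], r.natDegree ≤ l ∧
      ∀ u, r.eval (u ^ 2) = ∫ v in (-(1 / 2) : ℝ)..(1 / 2), Ga.eval v * Ga.eval (u - v) := by
  set c : ℕ → ℝ := fun j =>
    ∫ v in (-(1 / 2) : ℝ)..(1 / 2), Ga.eval v * (hasseDeriv j Ga).eval (-v) with hc
  have h1 : ∀ u, ∫ v in (-(1 / 2) : ℝ)..(1 / 2), Ga.eval v * Ga.eval (u - v) =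
      ∑ j ∈ Finset.range (2 * l + 1), c j * u ^ j := by
    intro u
    have e : ∀ v, Ga.eval v * Ga.eval (u - v) = ∑ j ∈ Finset.range (2 * l + 1),
        Ga.eval v * (hasseDeriv j Ga).eval (-v) * u ^ j := by
      intro v
      have a := eval_eq_sum_range' (p := taylor (-v) Ga) (n := 2 * l + 1)
        (by rw [natDegree_taylor]; omega) u
      rw [taylor_eval, ← sub_eq_add_neg] at a
      rw [a, Finset.mul_sum]
      exact Finset.sum_congr rfl fun j _ => by rw [taylor_coeff, mul_assoc]
    simp only [e]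
    have hcj : ∀ j, Continuous fun v : ℝ => Ga.eval v * (hasseDeriv j Ga).eval (-v) * u ^ j :=
      fun j => (Ga.continuous.mul ((hasseDeriv j Ga).continuous.comp continuous_neg)).mul
        continuous_const
    rw [intervalIntegral.integral_finsetSum fun j _ => (hcj j).intervalIntegrable _ _]
    exact Finset.sum_congr rfl fun j _ => intervalIntegral.integral_mul_const _ _
  have h2 : ∀ u, ∫ v in (-(1 / 2) : ℝ)..(1 / 2), Ga.eval v * Ga.eval (-u - v) =
      ∫ v in (-(1 / 2) : ℝ)..(1 / 2), Ga.eval v * Ga.eval (u - v) := by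
    intro u
    have h := intervalIntegral.integral_comp_neg (a := -(1 / 2)) (b := (1 / 2 : ℝ))
      (fun v => Ga.eval v * Ga.eval (u - v))
    rw [neg_neg] at h
    rw [← h]
    refine intervalIntegral.integral_congr fun v _ => ?_
    simp only [he]
    rw [← he (-u - v)]
    congr 2
    ring
  refine ⟨∑ j ∈ Finset.range (2 * l + 1), if Even j then monomial (j / 2) (c j) else 0,
    natDegree_sum_le_of_forall_le _ _ fun j hj => ?_, fun u => ?_⟩
  · have := Finset.mem_range.1 hj
    split_ifs
    · exact (natDegree_monomial_le _).trans (by omega)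
    · simp
  · have h3 := h2 u
    rw [h1, h1] at h3
    rw [h1, eval_finsetSum]
    have h4 : ∑ j ∈ Finset.range (2 * l + 1),
        eval (u ^ 2) (if Even j then monomial (j / 2) (c j) else 0) =
        ∑ j ∈ Finset.range (2 * l + 1), (c j * (-u) ^ j + c j * u ^ j) / 2 := by
      refine Finset.sum_congr rfl fun j _ => ?_
      split_ifs with h
      · rw [eval_monomial, h.neg_pow, ← pow_mul, Nat.two_mul_div_two_of_even h]
        ring
      · rw [eval_zero, (Nat.not_even_iff_odd.1 h).neg_pow]
        ring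
    rw [h4, ← Finset.sum_div, Finset.sum_add_distrib, h3]
    ring

/-- the Fourier half of the certificate. -/
theorem four (l : ℕ) (Ga : ℝ[X]) (M : ℝ) (hd : Ga.natDegree ≤ 2 * l)
    (he : ∀ v, Ga.eval (-v) = Ga.eval v)
    (hE : ∀ u ∈ Icc (0 : ℝ) 1,
      |∫ s in (0 : ℝ)..u, Ga.eval (1 / 2 + s) * Ga.eval (1 / 2 - (u - s))| ≤ M) :
    ∃ r : ℝ[X], r.natDegree ≤ l ∧ ∀ k : ℝ, |Phi (r.comp (X ^ 2)) k -
      (∫ v in (-1 / 2 : ℝ)..(1 / 2), Real.cos (k * v) * Ga.eval v) ^ 2| ≤ 2 * M := by
  obtain ⟨r, r1, r2⟩ := conv_poly l Ga hd he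
  refine ⟨r, r1, fun k => ?_⟩
  have hg : Continuous fun v : ℝ => Ga.eval v := Ga.continuous
  have hr : Continuous fun u : ℝ => Real.cos (k * u) * r.eval (u ^ 2) :=
    (by fun_prop : Continuous fun u : ℝ => Real.cos (k * u)).mul
      (r.continuous.comp (continuous_pow 2))
  have h1 : Phi (r.comp (X ^ 2)) k = 2 * ∫ u in (0 : ℝ)..1, Real.cos (k * u) * r.eval (u ^ 2) := by
    have h := intervalIntegral.integral_comp_neg (a := 0) (b := (1 : ℝ))
      (fun u => Real.cos (k * u) * r.eval (u ^ 2))
    simp only [mul_neg, Real.cos_neg, even_two, Even.neg_pow, neg_zero] at h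
    simp only [Phi, eval_comp, eval_pow, eval_X]
    rw [← intervalIntegral.integral_add_adjacent_intervals (b := 0) (hr.intervalIntegrable _ _)
      (hr.intervalIntegrable _ _), ← h]
    ring
  have hq : ∀ u, Continuous fun v : ℝ => Ga.eval v * Ga.eval (u - v) := fun u =>
    hg.mul (hg.comp (continuous_const.sub continuous_id))
  have h2 : ∀ u, ∫ v in (u - 1 / 2)..(1 / 2), Ga.eval v * Ga.eval (u - v) = r.eval (u ^ 2) -
      ∫ s in (0 : ℝ)..u, Ga.eval (1 / 2 + s) * Ga.eval (1 / 2 - (u - s)) := by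
    intro u
    have h := intervalIntegral.integral_comp_sub_left (a := 0) (b := u)
      (fun v => Ga.eval v * Ga.eval (u - v)) (u - 1 / 2)
    rw [sub_zero, show u - 1 / 2 - u = -(1 / 2) by ring] at h
    have h' : ∫ s in (0 : ℝ)..u, Ga.eval (1 / 2 + s) * Ga.eval (1 / 2 - (u - s)) =
        ∫ v in (-(1 / 2) : ℝ)..(u - 1 / 2), Ga.eval v * Ga.eval (u - v) := by
      rw [← h]
      refine intervalIntegral.integral_congr fun s _ => ?_
      rw [mul_comm, ← he (1 / 2 - (u - s))]
      congr 2 <;> ring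
    have h4 := intervalIntegral.integral_add_adjacent_intervals (μ := volume) (a := -(1 / 2))
      (b := u - 1 / 2) (c := 1 / 2) ((hq u).intervalIntegrable _ _) ((hq u).intervalIntegrable _ _)
    rw [h', r2]
    linarith
  have hA : Continuous fun u : ℝ =>
      ∫ s in (0 : ℝ)..u, Ga.eval (1 / 2 + s) * Ga.eval (1 / 2 - (u - s)) :=
    intervalIntegral.continuous_parametric_intervalIntegral_of_continuous
      (f := fun u s => Ga.eval (1 / 2 + s) * Ga.eval (1 / 2 - (u - s)))
      ((hg.comp (by fun_prop)).mul (hg.comp (by fun_prop))) continuous_id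
  rw [sq_eq _ hg he k, h1]
  simp only [h2, mul_sub (Real.cos _)]
  have hB : Continuous fun u : ℝ => Real.cos (k * u) *
      ∫ s in (0 : ℝ)..u, Ga.eval (1 / 2 + s) * Ga.eval (1 / 2 - (u - s)) :=
    (by fun_prop : Continuous fun u : ℝ => Real.cos (k * u)).mul hA
  rw [intervalIntegral.integral_sub (hr.intervalIntegrable _ _) (hB.intervalIntegrable _ _),
    ← mul_sub, sub_sub_cancel, abs_mul, abs_two]
  refine mul_le_mul_of_nonneg_left ?_ zero_le_two
  have h3 := intervalIntegral.norm_integral_le_of_norm_le_const (a := (0 : ℝ)) (b := 1) (C := M)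
    (f := fun u => Real.cos (k * u) *
      ∫ s in (0 : ℝ)..u, Ga.eval (1 / 2 + s) * Ga.eval (1 / 2 - (u - s))) (fun u hu => by
      rw [uIoc_of_le zero_le_one] at hu
      rw [Real.norm_eq_abs, abs_mul]
      exact (mul_le_of_le_one_left (abs_nonneg _) (Real.abs_cos_le_one _)).trans
        (hE u ⟨hu.1.le, hu.2⟩))
  simpa only [Real.norm_eq_abs, sub_zero, abs_one, mul_one] using h3

end Pool.Agent.MP_66cee2_co.H75
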