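import Mathlib

/-
Legendre polynomials from the three term recurrence: degree and bounds.
-/

namespace Pool.Agent.MP_66cee2_co.H75

open Polynomial

/-- the Legendre polynomials. -/
noncomputable def Lg : ℕ → ℝ[X]
  | 0 => 1
  | 1 => X
  | l + 2 => C (((l : ℝ) + 2)⁻¹) * (C (2 * (l : ℝ) + 3) * X * Lg (l + 1) - C ((l : ℝ) + 1) * Lg l)

theorem Lg_rec (l : ℕ) : C ((l : ℝ) + 2) * Lg (l + 2) =
    C (2 * (l : ℝ) + 3) * X * Lg (l + 1) - C ((l : ℝ) + 1) * Lg l := by
  have h : ((l : ℝ) + 2) ≠ 0 := by positivity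
  rw [Lg, ← mul_assoc, ← C_mul, mul_inv_cancel₀ h, C_1, one_mul]

theorem Lg_ev (l : ℕ) (z : ℝ) : ((l : ℝ) + 2) * (Lg (l + 2)).eval z =
    (2 * (l : ℝ) + 3) * z * (Lg (l + 1)).eval z - ((l : ℝ) + 1) * (Lg l).eval z := by
  have := congrArg (eval z) (Lg_rec l)
  simpa only [eval_mul, eval_sub, eval_C, eval_X] using this

theorem Lg_dev (l : ℕ) (z : ℝ) : ((l : ℝ) + 2) * (derivative (Lg (l + 2))).eval z =
    (2 * (l : ℝ) + 3) * ((Lg (l + 1)).eval z + z * (derivative (Lg (l + 1))).eval z) -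
      ((l : ℝ) + 1) * (derivative (Lg l)).eval z := by
  have := congrArg (fun p => eval z (derivative p)) (Lg_rec l)
  simp only [derivative_mul, derivative_sub, derivative_C, derivative_X, zero_mul, zero_add,
    mul_one, eval_mul, eval_sub, eval_add, eval_C, eval_X] at this
  linarith

theorem natDegree_Lg (l : ℕ) : (Lg l).natDegree ≤ l := by
  induction l using Nat.twoStepInduction with
  | zero => simp [Lg]
  | one => simp [Lg]
  | more l h0 h1 =>
    rw [Lg]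
    refine (natDegree_C_mul_le _ _).trans ((natDegree_sub_le _ _).trans (max_le ?_ ?_))
    · rw [mul_assoc]
      refine (natDegree_C_mul_le _ _).trans (natDegree_mul_le.trans ?_)
      have := natDegree_X_le (R := ℝ)
      omega
    · exact (natDegree_C_mul_le _ _).trans (by omega)

theorem Lg_AB (l : ℕ) (z : ℝ) :
    (derivative (Lg (l + 1))).eval z =
      z * (derivative (Lg l)).eval z + (l + 1) * (Lg l).eval z ∧
    (derivative (Lg l)).eval z =
      z * (derivative (Lg (l + 1))).eval z - (l + 1) * (Lg (l + 1)).eval z := by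
  induction l with
  | zero => simp [Lg]
  | succ l ih =>
    obtain ⟨a, b⟩ := ih
    have h : ((l : ℝ) + 2) ≠ 0 := by positivity
    have h1 := Lg_ev l z
    have h2 := Lg_dev l z
    have a' : (derivative (Lg (l + 2))).eval z =
        z * (derivative (Lg (l + 1))).eval z + (l + 2) * (Lg (l + 1)).eval z := by
      refine mul_left_cancel₀ h ?_
      rw [h2, b]
      ring
    push_cast
    refine ⟨by rw [a']; ring, ?_⟩
    rw [a']
    linear_combination a + z * b + h1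

theorem Lg_energy (l : ℕ) (z : ℝ) (hz : z ^ 2 ≤ 1) :
    ((l : ℝ) + 1) ^ 2 * ((Lg l).eval z) ^ 2 + (1 - z ^ 2) * ((derivative (Lg l)).eval z) ^ 2 ≤
      ((l : ℝ) + 1) ^ 2 := by
  induction l with
  | zero => simp [Lg]
  | succ l ih =>
    obtain ⟨a, b⟩ := Lg_AB l z
    set P := (Lg (l + 1)).eval z
    set D := (derivative (Lg (l + 1))).eval z
    have c : ((l : ℝ) + 1) * (Lg l).eval z = (l + 1) * z * P + (1 - z ^ 2) * D := by
      linear_combination -a - z * b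
    have e : ((l : ℝ) + 1) ^ 2 * P ^ 2 + (1 - z ^ 2) * D ^ 2 ≤ ((l : ℝ) + 1) ^ 2 := by
      refine le_of_eq_of_le ?_ ih
      rw [← mul_pow ((l : ℝ) + 1) ((Lg l).eval z), c, b]
      ring
    have hl : (0 : ℝ) < ((l : ℝ) + 1) ^ 2 := by positivity
    have h3 : 0 ≤ (1 - z ^ 2) * D ^ 2 := mul_nonneg (by linarith) (sq_nonneg _)
    have h4 : P ^ 2 ≤ 1 := by
      refine le_of_mul_le_mul_left ?_ hl
      linarith
    have h5 : (0 : ℝ) ≤ 2 * l + 3 := by positivity
    push_cast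
    nlinarith [mul_le_mul_of_nonneg_left h4 h5]

theorem abs_Lg (l : ℕ) (z : ℝ) (hz : z ^ 2 ≤ 1) : |(Lg l).eval z| ≤ 1 := by
  have e := Lg_energy l z hz
  have hl : (0 : ℝ) < ((l : ℝ) + 1) ^ 2 := by positivity
  have h3 : 0 ≤ (1 - z ^ 2) * ((derivative (Lg l)).eval z) ^ 2 :=
    mul_nonneg (by linarith) (sq_nonneg _)
  rw [← sq_le_one_iff_abs_le_one]
  refine le_of_mul_le_mul_left ?_ hl
  linarith

theorem Lg_mono (l : ℕ) (z : ℝ) (hz : 1 ≤ z) :
    1 ≤ (Lg l).eval z ∧ (Lg l).eval z ≤ (Lg (l + 1)).eval z := by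
  induction l with
  | zero => simp [Lg, hz]
  | succ l ih =>
    obtain ⟨a, b⟩ := ih
    have h : (0 : ℝ) < (l : ℝ) + 2 := by positivity
    have h0 : (0 : ℝ) ≤ l := Nat.cast_nonneg l
    refine ⟨a.trans b, le_of_mul_le_mul_left ?_ h⟩
    rw [Lg_ev]
    have h1 : 0 ≤ (2 * (l : ℝ) + 3) * ((z - 1) * (Lg (l + 1)).eval z) :=
      mul_nonneg (by linarith) (mul_nonneg (by linarith) (by linarith))
    have h2 : 0 ≤ ((l : ℝ) + 1) * ((Lg (l + 1)).eval z - (Lg l).eval z) :=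
      mul_nonneg (by linarith) (by linarith)
    linarith

theorem one_le_Lg (l : ℕ) (z : ℝ) (hz : 1 ≤ z) : 1 ≤ (Lg l).eval z := (Lg_mono l z hz).1

theorem Lg_ratio (l : ℕ) (ρ z : ℝ) (hρ : 19 / 10 ≤ ρ) (hz : (ρ + 1 / ρ) / 2 ≤ z) :
    ρ * (l + 1) * (Lg l).eval z ≤ (l + 2) * (Lg (l + 1)).eval z := by
  have h0 : 0 < ρ := by linarith
  have hz' : ρ ^ 2 + 1 ≤ 2 * z * ρ := by
    have := mul_le_mul_of_nonneg_right hz h0.le
    have e : (ρ + 1 / ρ) / 2 * ρ = (ρ ^ 2 + 1) / 2 := by field_simp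
    linarith
  have hz1 : 1 ≤ z := by
    refine le_of_mul_le_mul_right ?_ h0
    nlinarith [sq_nonneg (ρ - 1)]
  induction l with
  | zero =>
    simp only [Lg, eval_one, eval_X, Nat.cast_zero, zero_add, mul_one]
    refine le_of_mul_le_mul_right ?_ h0
    nlinarith
  | succ l ih =>
    have hl : (0 : ℝ) ≤ l := Nat.cast_nonneg l
    have hP := one_le_Lg (l + 1) z hz1
    have h1 := Lg_ev l z
    set P := (Lg (l + 1)).eval z
    have h2 : (0 : ℝ) < ρ * (l + 2) := by positivity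
    push_cast
    refine le_of_mul_le_mul_left ?_ h2
    have e : ρ * (l + 2) * ((l + 1 + 2) * (Lg (l + 1 + 1)).eval z) =
        (l + 3) * ((2 * l + 3) * (z * ρ) * P - ρ * (l + 1) * (Lg l).eval z) := by
      linear_combination (ρ * (l + 3)) * h1
    rw [e]
    have h3 : (2 * (l : ℝ) + 3) * ((ρ ^ 2 + 1) / 2) * P ≤ (2 * l + 3) * (z * ρ) * P := by
      gcongr
      linarith
    have h4 : ((l : ℝ) + 3) * ((2 * l + 3) * ((ρ ^ 2 + 1) / 2) * P - (l + 2) * P) ≤
        (l + 3) * ((2 * l + 3) * (z * ρ) * P - ρ * (l + 1) * (Lg l).eval z) := by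
      gcongr
    refine le_trans ?_ h4
    have h5 : 0 ≤ ((l : ℝ) + 1) * ρ ^ 2 - (l + 3) := by nlinarith
    nlinarith [mul_nonneg h5 (zero_le_one.trans hP)]

theorem pow_le_Lg (l : ℕ) (ρ z : ℝ) (hρ : 19 / 10 ≤ ρ) (hz : (ρ + 1 / ρ) / 2 ≤ z) :
    ρ ^ l / (l + 1) ≤ (Lg l).eval z := by
  have h0 : 0 < ρ := by linarith
  rw [div_le_iff₀ (by positivity)]
  induction l with
  | zero => simp [Lg]
  | succ l ih =>
    have h1 := Lg_ratio l ρ z hρ hz
    have h2 := mul_le_mul_of_nonneg_left ih h0.le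
    push_cast
    rw [pow_succ]
    linarith

end Pool.Agent.MP_66cee2_co.H75
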