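import Mathlib

/-! The Mehler kernel on Euclidean space: marginals and the semigroup law. -/

namespace H75M

open MeasureTheory Real
open scoped RealInnerProductSpace

abbrev V (d : ℕ) := EuclideanSpace ℝ (Fin d)

variable {d : ℕ}

theorem gi0 {b : ℝ} (hb : 0 < b) : Integrable (fun v : V d => rexp (-b * ‖v‖ ^ 2)) := by
  have h := (GaussianFourier.integrable_cexp_neg_mul_sq_norm_add (V := V d) (b := (b : ℂ))
    (by simpa using hb) 0 0).norm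
  refine h.congr (Filter.Eventually.of_forall fun v => ?_)
  simp only [zero_mul, add_zero, Complex.norm_exp]
  have : (-(b : ℂ) * (‖v‖ : ℂ) ^ 2) = ((-b * ‖v‖ ^ 2 : ℝ) : ℂ) := by push_cast; ring
  rw [this, Complex.ofReal_re]

theorem sq_comp {b : ℝ} (hb : 0 < b) (w z : V d) :
    -b * ‖z‖ ^ 2 + ⟪w, z⟫ = -b * ‖z - (1 / (2 * b)) • w‖ ^ 2 + ‖w‖ ^ 2 / (4 * b) := by
  rw [norm_sub_sq_real, inner_smul_right, norm_smul, mul_pow, Real.norm_eq_abs, sq_abs,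
    real_inner_comm]
  field_simp
  ring

theorem gi {b : ℝ} (hb : 0 < b) (w : V d) :
    Integrable (fun z : V d => rexp (-b * ‖z‖ ^ 2 + ⟪w, z⟫)) := by
  have h := ((gi0 (d := d) hb).comp_sub_right ((1 / (2 * b)) • w)).mul_const
    (rexp (‖w‖ ^ 2 / (4 * b)))
  refine h.congr (Filter.Eventually.of_forall fun z => ?_)
  simp only
  rw [sq_comp hb w z, Real.exp_add]

theorem gv {b : ℝ} (hb : 0 < b) (w : V d) :
    ∫ z : V d, rexp (-b * ‖z‖ ^ 2 + ⟪w, z⟫)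
      = (π / b) ^ ((d : ℝ) / 2) * rexp (‖w‖ ^ 2 / (4 * b)) := by
  have h1 : (fun z : V d => rexp (-b * ‖z‖ ^ 2 + ⟪w, z⟫))
      = fun z => rexp (-b * ‖z - (1 / (2 * b)) • w‖ ^ 2) * rexp (‖w‖ ^ 2 / (4 * b)) := by
    funext z
    rw [sq_comp hb w z, Real.exp_add]
  rw [h1, integral_mul_const,
    integral_sub_right_eq_self (fun z : V d => rexp (-b * ‖z‖ ^ 2)) ((1 / (2 * b)) • w),
    GaussianFourier.integral_rexp_neg_mul_sq_norm hb]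
  simp

/-- Gaussian density of variance `s ^ 2` per coordinate. -/
noncomputable def ga (s : ℝ) (x : V d) : ℝ :=
  (2 * π * s ^ 2) ^ (-((d : ℝ) / 2)) * rexp (-‖x‖ ^ 2 / (2 * s ^ 2))

/-- Joint density of a `lam`-correlated Gaussian pair. -/
noncomputable def K (s lam : ℝ) (x y : V d) : ℝ :=
  (2 * π * s ^ 2) ^ (-(d : ℝ)) * (1 - lam ^ 2) ^ (-((d : ℝ) / 2)) *
    rexp (-(‖x‖ ^ 2 + ‖y‖ ^ 2 - 2 * lam * ⟪x, y⟫) / (2 * s ^ 2 * (1 - lam ^ 2)))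

theorem tp {s : ℝ} (hs : 0 < s) : 0 < 2 * π * s ^ 2 := by
  have := Real.pi_pos
  positivity

theorem ga_pos {s : ℝ} (hs : 0 < s) (x : V d) : 0 < ga s x :=
  mul_pos (Real.rpow_pos_of_pos (tp hs) _) (Real.exp_pos _)

theorem K_pos {s lam : ℝ} (hs : 0 < s) (hl : lam ^ 2 < 1) (x y : V d) : 0 < K s lam x y :=
  mul_pos (mul_pos (Real.rpow_pos_of_pos (tp hs) _) (Real.rpow_pos_of_pos (by linarith) _))
    (Real.exp_pos _)

theorem K_symm (s lam : ℝ) (x y : V d) : K s lam x y = K s lam y x := by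
  unfold K
  rw [real_inner_comm x y, add_comm (‖x‖ ^ 2)]

theorem ga_cont (s : ℝ) : Continuous (ga s : V d → ℝ) := by
  unfold ga
  fun_prop

theorem K_cont (s lam : ℝ) : Continuous (fun q : V d × V d => K s lam q.1 q.2) := by
  unfold K
  fun_prop

theorem K_zero {s : ℝ} (hs : 0 < s) (x y : V d) : K s 0 x y = ga s x * ga s y := by
  unfold K ga
  have h : (2 * π * s ^ 2) ^ (-(d : ℝ))
      = (2 * π * s ^ 2) ^ (-((d : ℝ) / 2)) * (2 * π * s ^ 2) ^ (-((d : ℝ) / 2)) := by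
    rw [← Real.rpow_add (tp hs)]
    congr 1
    ring
  have h2 : -(‖x‖ ^ 2 + ‖y‖ ^ 2 - 2 * 0 * ⟪x, y⟫) / (2 * s ^ 2 * (1 - 0 ^ 2))
      = -‖x‖ ^ 2 / (2 * s ^ 2) + -‖y‖ ^ 2 / (2 * s ^ 2) := by
    field_simp
    ring
  rw [h, h2, Real.exp_add]
  simp only [ne_eq, OfNat.ofNat_ne_zero, not_false_eq_true, zero_pow, sub_zero, Real.one_rpow]
  ring

theorem ga_eq {s : ℝ} (hs : 0 < s) (x : V d) :
    ga s x = (2 * π * s ^ 2) ^ (-((d : ℝ) / 2)) *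
      rexp (-(1 / (2 * s ^ 2)) * ‖x‖ ^ 2 + ⟪(0 : V d), x⟫) := by
  unfold ga
  rw [inner_zero_left]
  congr 2
  field_simp
  ring

theorem ga_int {s : ℝ} (hs : 0 < s) : Integrable (ga s : V d → ℝ) := by
  have h := (gi (d := d) (b := 1 / (2 * s ^ 2)) (by positivity) 0).const_mul
    ((2 * π * s ^ 2) ^ (-((d : ℝ) / 2)))
  exact h.congr (Filter.Eventually.of_forall fun x => (ga_eq hs x).symm)

theorem ga_total {s : ℝ} (hs : 0 < s) : ∫ x : V d, ga s x = 1 := by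
  simp only [ga_eq hs]
  rw [integral_const_mul, gv (by positivity)]
  have : π / (1 / (2 * s ^ 2)) = 2 * π * s ^ 2 := by
    field_simp
  rw [this, ← mul_assoc, ← Real.rpow_add (tp hs)]
  simp

theorem K_eq {s lam : ℝ} (hs : 0 < s) (hl : lam ^ 2 < 1) (x y : V d) :
    K s lam x y = ((2 * π * s ^ 2) ^ (-(d : ℝ)) * (1 - lam ^ 2) ^ (-((d : ℝ) / 2)) *
      rexp (-‖x‖ ^ 2 / (2 * s ^ 2 * (1 - lam ^ 2)))) *
      rexp (-(1 / (2 * s ^ 2 * (1 - lam ^ 2))) * ‖y‖ ^ 2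
        + ⟪(lam / (s ^ 2 * (1 - lam ^ 2))) • x, y⟫) := by
  have h1 : 0 < 1 - lam ^ 2 := by linarith
  unfold K
  rw [mul_assoc _ (rexp _) (rexp _), ← Real.exp_add, inner_smul_left]
  congr 2
  simp only [conj_trivial]
  field_simp
  ring

theorem K_int {s lam : ℝ} (hs : 0 < s) (hl : lam ^ 2 < 1) (x : V d) :
    Integrable (fun y => K s lam x y) := by
  have h1 : 0 < 1 - lam ^ 2 := by linarith
  simp only [K_eq hs hl]
  exact (gi (by positivity) _).const_mul _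

/-- The marginal of the pair is the Gaussian. -/
theorem K_marg {s lam : ℝ} (hs : 0 < s) (hl : lam ^ 2 < 1) (x : V d) :
    ∫ y, K s lam x y = ga s x := by
  have h1 : 0 < 1 - lam ^ 2 := by linarith
  simp only [K_eq hs hl]
  rw [integral_const_mul, gv (by positivity)]
  have e1 : π / (1 / (2 * s ^ 2 * (1 - lam ^ 2))) = (2 * π * s ^ 2) * (1 - lam ^ 2) := by
    field_simp
  have e2 : (2 * π * s ^ 2) ^ (-(d : ℝ)) * (2 * π * s ^ 2) ^ ((d : ℝ) / 2)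
      = (2 * π * s ^ 2) ^ (-((d : ℝ) / 2)) := by
    rw [← Real.rpow_add (tp hs)]
    congr 1
    ring
  have e3 : (1 - lam ^ 2) ^ (-((d : ℝ) / 2)) * (1 - lam ^ 2) ^ ((d : ℝ) / 2) = 1 := by
    rw [← Real.rpow_add h1]
    simp
  have e4 : -‖x‖ ^ 2 / (2 * s ^ 2 * (1 - lam ^ 2)) +
      ‖(lam / (s ^ 2 * (1 - lam ^ 2))) • x‖ ^ 2 / (4 * (1 / (2 * s ^ 2 * (1 - lam ^ 2))))
      = -‖x‖ ^ 2 / (2 * s ^ 2) := by
    rw [norm_smul, mul_pow, Real.norm_eq_abs, sq_abs]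
    field_simp
    ring
  rw [e1, Real.mul_rpow (tp hs).le h1.le]
  unfold ga
  rw [← e4, Real.exp_add, ← e2]
  linear_combination ((2 * π * s ^ 2) ^ (-(d : ℝ)) * (2 * π * s ^ 2) ^ ((d : ℝ) / 2) *
    rexp (-‖x‖ ^ 2 / (2 * s ^ 2 * (1 - lam ^ 2))) *
    rexp (‖(lam / (s ^ 2 * (1 - lam ^ 2))) • x‖ ^ 2 /
      (4 * (1 / (2 * s ^ 2 * (1 - lam ^ 2)))))) * e3

theorem K_int2 {s lam : ℝ} (hs : 0 < s) (hl : lam ^ 2 < 1) :
    Integrable (fun q : V d × V d => K s lam q.1 q.2) (volume.prod volume) := by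
  rw [integrable_prod_iff (K_cont s lam).aestronglyMeasurable]
  refine ⟨Filter.Eventually.of_forall fun x => K_int hs hl x, ?_⟩
  refine (ga_int hs).congr (Filter.Eventually.of_forall fun x => ?_)
  simp only [Real.norm_eq_abs, abs_of_pos (K_pos hs hl _ _)]
  exact (K_marg hs hl x).symm

theorem mul_sq_lt {mu nu : ℝ} (hm : mu ^ 2 < 1) (hn : nu ^ 2 < 1) : (mu * nu) ^ 2 < 1 := by
  rw [mul_pow]
  nlinarith [sq_nonneg mu, sq_nonneg nu]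

theorem KK_eq {s mu nu : ℝ} (hs : 0 < s) (hm : mu ^ 2 < 1) (hn : nu ^ 2 < 1) (x y z : V d) :
    K s mu x z * K s nu z y / ga s z =
      ((2 * π * s ^ 2) ^ (-(d : ℝ)) * (2 * π * s ^ 2) ^ (-((d : ℝ) / 2)) *
        (1 - mu ^ 2) ^ (-((d : ℝ) / 2)) * (1 - nu ^ 2) ^ (-((d : ℝ) / 2)) *
        rexp (-‖x‖ ^ 2 / (2 * s ^ 2 * (1 - mu ^ 2)) + -‖y‖ ^ 2 / (2 * s ^ 2 * (1 - nu ^ 2)))) *
      rexp (-((1 - (mu * nu) ^ 2) / (2 * s ^ 2 * (1 - mu ^ 2) * (1 - nu ^ 2))) * ‖z‖ ^ 2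
        + ⟪(mu / (s ^ 2 * (1 - mu ^ 2))) • x + (nu / (s ^ 2 * (1 - nu ^ 2))) • y, z⟫) := by
  have h1 : 0 < 1 - mu ^ 2 := by linarith
  have h2 : 0 < 1 - nu ^ 2 := by linarith
  have hg := ga_pos hs z
  rw [div_eq_iff hg.ne']
  unfold K ga
  have e : (2 * π * s ^ 2) ^ (-(d : ℝ))
      = (2 * π * s ^ 2) ^ (-((d : ℝ) / 2)) * (2 * π * s ^ 2) ^ (-((d : ℝ) / 2)) := by
    rw [← Real.rpow_add (tp hs)]
    congr 1
    ring
  have e2 : rexp (-(‖x‖ ^ 2 + ‖z‖ ^ 2 - 2 * mu * ⟪x, z⟫) / (2 * s ^ 2 * (1 - mu ^ 2))) *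
      rexp (-(‖z‖ ^ 2 + ‖y‖ ^ 2 - 2 * nu * ⟪z, y⟫) / (2 * s ^ 2 * (1 - nu ^ 2))) =
      rexp (-‖x‖ ^ 2 / (2 * s ^ 2 * (1 - mu ^ 2)) + -‖y‖ ^ 2 / (2 * s ^ 2 * (1 - nu ^ 2))) *
      rexp (-((1 - (mu * nu) ^ 2) / (2 * s ^ 2 * (1 - mu ^ 2) * (1 - nu ^ 2))) * ‖z‖ ^ 2
        + ⟪(mu / (s ^ 2 * (1 - mu ^ 2))) • x + (nu / (s ^ 2 * (1 - nu ^ 2))) • y, z⟫) *
      rexp (-‖z‖ ^ 2 / (2 * s ^ 2)) := by
    rw [← Real.exp_add, ← Real.exp_add, ← Real.exp_add, inner_add_left, inner_smul_left,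
      inner_smul_left, real_inner_comm z y]
    congr 1
    simp only [conj_trivial]
    field_simp
    ring
  generalize (2 * π * s ^ 2) ^ (-((d : ℝ) / 2)) = A at e ⊢
  rw [e]
  linear_combination (A * A * A * A * (1 - mu ^ 2) ^ (-((d : ℝ) / 2)) *
    (1 - nu ^ 2) ^ (-((d : ℝ) / 2))) * e2

theorem KK_int {s mu nu : ℝ} (hs : 0 < s) (hm : mu ^ 2 < 1) (hn : nu ^ 2 < 1) (x y : V d) :
    Integrable (fun z => K s mu x z * K s nu z y / ga s z) := by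
  have h1 : 0 < 1 - mu ^ 2 := by linarith
  have h2 : 0 < 1 - nu ^ 2 := by linarith
  have h3 : 0 < 1 - (mu * nu) ^ 2 := by linarith [mul_sq_lt hm hn]
  simp only [KK_eq hs hm hn]
  exact (gi (by positivity) _).const_mul _

/-- The semigroup law. -/
theorem K_semi {s mu nu : ℝ} (hs : 0 < s) (hm : mu ^ 2 < 1) (hn : nu ^ 2 < 1) (x y : V d) :
    ∫ z, K s mu x z * K s nu z y / ga s z = K s (mu * nu) x y := by
  have h1 : 0 < 1 - mu ^ 2 := by linarith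
  have h2 : 0 < 1 - nu ^ 2 := by linarith
  have h3 : 0 < 1 - (mu * nu) ^ 2 := by linarith [mul_sq_lt hm hn]
  simp only [KK_eq hs hm hn]
  rw [integral_const_mul, gv (by positivity)]
  have e1 : π / ((1 - (mu * nu) ^ 2) / (2 * s ^ 2 * (1 - mu ^ 2) * (1 - nu ^ 2)))
      = (2 * π * s ^ 2) * (1 - mu ^ 2) * (1 - nu ^ 2) * (1 - (mu * nu) ^ 2)⁻¹ := by
    field_simp
  have e3 : ∀ t : ℝ, 0 < t → t ^ (-((d : ℝ) / 2)) * t ^ ((d : ℝ) / 2) = 1 := by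
    intro t ht
    rw [← Real.rpow_add ht]
    simp
  have e4 : -‖x‖ ^ 2 / (2 * s ^ 2 * (1 - mu ^ 2)) + -‖y‖ ^ 2 / (2 * s ^ 2 * (1 - nu ^ 2)) +
      ‖(mu / (s ^ 2 * (1 - mu ^ 2))) • x + (nu / (s ^ 2 * (1 - nu ^ 2))) • y‖ ^ 2 /
        (4 * ((1 - (mu * nu) ^ 2) / (2 * s ^ 2 * (1 - mu ^ 2) * (1 - nu ^ 2))))
      = -(‖x‖ ^ 2 + ‖y‖ ^ 2 - 2 * (mu * nu) * ⟪x, y⟫) / (2 * s ^ 2 * (1 - (mu * nu) ^ 2)) := by
    rw [norm_add_sq_real, norm_smul, norm_smul, mul_pow, mul_pow, Real.norm_eq_abs,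
      Real.norm_eq_abs, sq_abs, sq_abs, inner_smul_left, inner_smul_right]
    simp only [conj_trivial]
    have h4 : 1 - nu ^ 2 * mu ^ 2 ≠ 0 := by
      have : 1 - nu ^ 2 * mu ^ 2 = 1 - (mu * nu) ^ 2 := by ring
      rw [this]
      exact h3.ne'
    have h5 : 1 - mu ^ 2 * nu ^ 2 ≠ 0 := by rw [mul_comm]; exact h4
    field_simp
    ring
  have e5 : ((1 - (mu * nu) ^ 2)⁻¹) ^ ((d : ℝ) / 2) = (1 - (mu * nu) ^ 2) ^ (-((d : ℝ) / 2)) := by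
    rw [Real.inv_rpow h3.le, Real.rpow_neg h3.le]
  have tp' := tp hs
  rw [e1, Real.mul_rpow (mul_pos (mul_pos tp' h1) h2).le (inv_pos.2 h3).le,
    Real.mul_rpow (mul_pos tp' h1).le h2.le, Real.mul_rpow tp'.le h1.le, e5]
  unfold K
  rw [← e4, Real.exp_add (_ + _)]
  have a1 := e3 _ tp'
  have a2 := e3 _ h1
  have a3 := e3 _ h2
  generalize (2 * π * s ^ 2) ^ (-((d : ℝ) / 2)) = A at a1 ⊢
  generalize (2 * π * s ^ 2) ^ ((d : ℝ) / 2) = A' at a1 ⊢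
  generalize (1 - mu ^ 2) ^ (-((d : ℝ) / 2)) = B at a2 ⊢
  generalize (1 - mu ^ 2) ^ ((d : ℝ) / 2) = B' at a2 ⊢
  generalize (1 - nu ^ 2) ^ (-((d : ℝ) / 2)) = C at a3 ⊢
  generalize (1 - nu ^ 2) ^ ((d : ℝ) / 2) = C' at a3 ⊢
  generalize rexp (-‖x‖ ^ 2 / (2 * s ^ 2 * (1 - mu ^ 2)) +
    -‖y‖ ^ 2 / (2 * s ^ 2 * (1 - nu ^ 2))) = E1
  generalize rexp (_ / (4 * _)) = E2
  generalize (2 * π * s ^ 2) ^ (-(d : ℝ)) = D
  generalize (1 - (mu * nu) ^ 2) ^ (-((d : ℝ) / 2)) = F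
  have : A * A' * (B * B') * (C * C') = 1 := by rw [a1, a2, a3]; ring
  linear_combination (D * F * E1 * E2) * this

/-- The kernel is a translation invariant Gaussian times a weight on each side. -/
theorem K_fac {s lam : ℝ} (hs : 0 < s) (hl : lam ^ 2 < 1) (x y : V d) :
    K s lam x y = (2 * π * s ^ 2) ^ (-(d : ℝ)) * (1 - lam ^ 2) ^ (-((d : ℝ) / 2)) *
      rexp (-(lam / (2 * s ^ 2 * (1 - lam ^ 2))) * ‖x - y‖ ^ 2) *
      rexp (-‖x‖ ^ 2 / (2 * s ^ 2 * (1 + lam))) * rexp (-‖y‖ ^ 2 / (2 * s ^ 2 * (1 + lam))) := by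
  have h1 : 0 < 1 - lam := by nlinarith
  have h2 : 0 < 1 + lam := by nlinarith
  have h3 : 1 - lam ^ 2 = (1 - lam) * (1 + lam) := by ring
  unfold K
  rw [mul_assoc _ (rexp _) (rexp _), ← Real.exp_add, mul_assoc _ (rexp _) (rexp _),
    ← Real.exp_add, norm_sub_sq_real]
  congr 2
  rw [h3]
  field_simp
  ring

end H75M
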