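import Pool.Agent.MP_66cee2_co.TR.Spec

/-
Separation of two closed sets inside a compact set that has no connected piece joining them.
-/

namespace Pool.Agent.MP_66cee2_co.TR.H75

open Set Metric Pool.Agent.MP_66cee2_co.X Pool.Agent.MP_66cee2_co.D

theorem clopen_pt {Y : Type*} [TopologicalSpace Y] [T2Space Y] [CompactSpace Y] (a : Y)
    (B : Set Y) (hB : IsClosed B) (h : Disjoint B (connectedComponent a)) :
    ∃ U, IsClopen U ∧ a ∈ U ∧ Disjoint B U := by
  rw [connectedComponent_eq_iInter_isClopen a] at h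
  obtain ⟨t, ht⟩ := hB.isCompact.elim_finite_subfamily_closed
    (fun s : {s : Set Y // IsClopen s ∧ a ∈ s} => (s : Set Y)) (fun s => s.2.1.isClosed)
    h.inter_eq
  exact ⟨⋂ s ∈ t, (s : Set Y), isClopen_biInter_finset fun s _ => s.2.1,
    mem_iInter₂.2 fun s _ => s.2.2, disjoint_iff_inter_eq_empty.2 ht⟩

theorem clopen_set {Y : Type*} [TopologicalSpace Y] [T2Space Y] [CompactSpace Y]
    (A B : Set Y) (hA : IsClosed A) (hB : IsClosed B)
    (h : ∀ a ∈ A, Disjoint B (connectedComponent a)) :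
    ∃ U, IsClopen U ∧ A ⊆ U ∧ Disjoint B U := by
  refine hA.isCompact.induction_on (p := fun S => ∃ U, IsClopen U ∧ S ⊆ U ∧ Disjoint B U)
    ⟨∅, isClopen_empty, subset_rfl, disjoint_empty _⟩ ?_ ?_ ?_
  · rintro s t hst ⟨U, u1, u2, u3⟩
    exact ⟨U, u1, hst.trans u2, u3⟩
  · rintro s t ⟨U, u1, u2, u3⟩ ⟨V, v1, v2, v3⟩
    exact ⟨U ∪ V, u1.union v1, union_subset_union u2 v2, disjoint_union_right.2 ⟨u3, v3⟩⟩
  · intro a ha
    obtain ⟨U, u1, u2, u3⟩ := clopen_pt a B hB (h a ha)
    exact ⟨U, mem_nhdsWithin_of_mem_nhds (u1.isOpen.mem_nhds u2), U, u1, subset_rfl, u3⟩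

theorem sSep : SSep := by
  intro d C F G hC hF hG h
  have : CompactSpace C := isCompact_iff_compactSpace.1 hC
  obtain ⟨U, u1, u2, u3⟩ := clopen_set (Y := C) (Subtype.val ⁻¹' F) (Subtype.val ⁻¹' G)
    (hF.preimage continuous_subtype_val) (hG.preimage continuous_subtype_val) (by
      intro a ha
      refine disjoint_left.2 fun b hb hc => ?_
      refine h (Subtype.val '' connectedComponent a) ?_
        (isPreconnected_connectedComponent.image _ continuous_subtype_val.continuousOn)
        ⟨a, mem_image_of_mem _ mem_connectedComponent, ha⟩ ⟨b, mem_image_of_mem _ hc, hb⟩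
      rintro _ ⟨x, _, rfl⟩
      exact x.2)
  refine ⟨Subtype.val '' U, Subtype.val '' Uᶜ,
    (u1.isClosed.isCompact.image continuous_subtype_val).isClosed,
    (u1.compl.isClosed.isCompact.image continuous_subtype_val).isClosed, ?_, ?_, ?_, ?_⟩
  · rw [← image_union, union_compl_self, image_univ, Subtype.range_coe]
  · exact (disjoint_image_iff Subtype.val_injective).2 disjoint_compl_right
  · refine disjoint_left.2 ?_
    rintro _ ⟨x, hx, rfl⟩ hg
    exact disjoint_left.1 u3 hg hx
  · refine disjoint_left.2 ?_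
    rintro _ ⟨x, hx, rfl⟩ hf
    exact hx (u2 hf)

end Pool.Agent.MP_66cee2_co.TR.H75
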