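import Mathlib

/-
A chain of functions with `A (m+1)' = 2 (m+1) t A m` whose top member is flat at `1`
vanishes at `1`.
-/

namespace Pool.Agent.MP_66cee2_co.H75

open Set

theorem van_step (f g : ℝ → ℝ) (j : ℕ) (c δ M : ℝ) (hc : 0 < c) (hM : 1 ≤ M)
    (hd : ∀ t, HasDerivAt g (M * t * f t) t)
    (hf : ∀ t ∈ Icc (1 : ℝ) (1 + δ), c * (t - 1) ^ j ≤ f t) :
    ∀ t ∈ Icc (1 : ℝ) (1 + δ), c / (j + 1) * (t - 1) ^ (j + 1) ≤ g t - g 1 := by
  have hj : (0 : ℝ) < j + 1 := by positivity
  have h1 : ∀ t, HasDerivAt (fun t => g t - c / (j + 1) * (t - 1) ^ (j + 1))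
      (M * t * f t - c * (t - 1) ^ j) t := by
    intro t
    have h2 := (((hasDerivAt_id t).sub_const 1).pow (j + 1)).const_mul (c / (j + 1))
    have h3 := (hd t).sub h2
    have e : M * t * f t - c / (j + 1) * (((j + 1 : ℕ) : ℝ) * (id t - 1) ^ (j + 1 - 1) * 1)
        = M * t * f t - c * (t - 1) ^ j := by
      simp only [id, Nat.add_sub_cancel]
      push_cast
      field_simp
    rw [e] at h3
    exact h3
  have hm : MonotoneOn (fun t => g t - c / (j + 1) * (t - 1) ^ (j + 1)) (Icc 1 (1 + δ)) := by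
    refine monotoneOn_of_deriv_nonneg (convex_Icc _ _)
      (fun t _ => (h1 t).continuousAt.continuousWithinAt)
      (fun t _ => (h1 t).differentiableAt.differentiableWithinAt) ?_
    intro t ht
    have ht' := interior_subset ht
    rw [(h1 t).deriv]
    have a1 := hf t ht'
    have a2 : 0 ≤ c * (t - 1) ^ j := mul_nonneg hc.le (pow_nonneg (by linarith [ht'.1]) _)
    have a3 : 1 ≤ M * t := by nlinarith [ht'.1]
    nlinarith
  intro t ht
  have := hm ⟨le_rfl, by linarith [ht.1, ht.2]⟩ ht ht.1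
  simp only [sub_self, ne_eq, Nat.add_eq_zero_iff, one_ne_zero, and_false, not_false_eq_true,
    zero_pow, mul_zero, sub_zero] at this
  linarith

theorem van_pos (A : ℕ → ℝ → ℝ) (l m : ℕ) (C δ : ℝ) (hδ : 0 < δ) (hm : m ≤ l)
    (hd : ∀ m t, HasDerivAt (A (m + 1)) (2 * (m + 1) * t * A m t) t) (h0 : ContinuousAt (A m) 1)
    (hO : ∀ t ∈ Icc (1 : ℝ) (1 + δ), A (l + 1) t - A (l + 1) 1 ≤ C * (t - 1) ^ (l + 2))
    (hz : ∀ i, m < i → i ≤ l → A i 1 = 0) : A m 1 ≤ 0 := by
  by_contra hp
  have hp : 0 < A m 1 := lt_of_not_ge hp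
  have hev : ∀ᶠ t in nhds (1 : ℝ), A m 1 / 2 < A m t :=
    h0.eventually (lt_mem_nhds (by linarith))
  obtain ⟨ε, hε, hb⟩ := Metric.eventually_nhds_iff.1 hev
  have hM : ∀ i : ℕ, (1 : ℝ) ≤ 2 * (i + 1) := fun i => by
    have : (0 : ℝ) ≤ i := Nat.cast_nonneg i
    linarith
  have key : ∀ j, m + j ≤ l → ∃ c, 0 < c ∧
      ∀ t ∈ Icc (1 : ℝ) (1 + ε / 2), c * (t - 1) ^ j ≤ A (m + j) t := by
    intro j
    induction j with
    | zero =>
      intro _
      refine ⟨A m 1 / 2, by linarith, fun t ht => ?_⟩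
      have : dist t 1 < ε := by
        rw [Real.dist_eq, abs_lt]
        constructor <;> linarith [ht.1, ht.2]
      simpa using (hb this).le
    | succ j ih =>
      intro hj
      obtain ⟨c, c0, hc⟩ := ih (by omega)
      refine ⟨c / (j + 1), by positivity, fun t ht => ?_⟩
      have := van_step (A (m + j)) (A (m + j + 1)) j c (ε / 2) _ c0 (hM (m + j)) (hd (m + j)) hc t ht
      rw [hz (m + j + 1) (by omega) (by omega), sub_zero] at this
      exact this
  obtain ⟨j, rfl⟩ := Nat.exists_eq_add_of_le hm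
  obtain ⟨c, c0, hc⟩ := key j le_rfl
  have h1 := van_step (A (m + j)) (A (m + j + 1)) j c (ε / 2) _ c0 (hM (m + j)) (hd (m + j)) hc
  have c1 : 0 < c / (j + 1) := by positivity
  set c' := c / (j + 1)
  have hC : 0 < |C| + 1 := by positivity
  set s := min (min δ (ε / 2)) (min 1 (c' / (|C| + 1))) with hs
  have s0 : 0 < s := by positivity
  have s1 : s ≤ δ := (min_le_left _ _).trans (min_le_left _ _)
  have s2 : s ≤ ε / 2 := (min_le_left _ _).trans (min_le_right _ _)
  have s3 : s ≤ 1 := (min_le_right _ _).trans (min_le_left _ _)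
  have s4 : s ≤ c' / (|C| + 1) := (min_le_right _ _).trans (min_le_right _ _)
  have b1 := h1 (1 + s) ⟨by linarith, by linarith⟩
  have b2 := hO (1 + s) ⟨by linarith, by linarith⟩
  rw [add_sub_cancel_left] at b1 b2
  have b3 : s ^ (m + j + 2) ≤ s ^ (j + 1) * s := by
    rw [← pow_succ]
    exact pow_le_pow_of_le_one s0.le s3 (by omega)
  have b4 : 0 < s ^ (j + 1) := pow_pos s0 _
  have b5 : C * s ^ (m + j + 2) ≤ |C| * (s ^ (j + 1) * s) :=
    (mul_le_mul_of_nonneg_right (le_abs_self C) (pow_nonneg s0.le _)).trans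
      (mul_le_mul_of_nonneg_left b3 (abs_nonneg C))
  have b6 : s * (|C| + 1) ≤ c' := (le_div_iff₀ hC).1 s4
  have b7 : c' * s ^ (j + 1) ≤ (|C| * s) * s ^ (j + 1) := by linarith
  have b8 := le_of_mul_le_mul_right b7 b4
  nlinarith

theorem van (A : ℕ → ℝ → ℝ) (l : ℕ) (C δ : ℝ) (hδ : 0 < δ)
    (hd : ∀ m t, HasDerivAt (A (m + 1)) (2 * (m + 1) * t * A m t) t) (h0 : ContinuousAt (A 0) 1)
    (hO : ∀ t ∈ Icc (1 : ℝ) (1 + δ), |A (l + 1) t - A (l + 1) 1| ≤ C * (t - 1) ^ (l + 2)) :
    ∀ m ≤ l, A m 1 = 0 := by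
  have hc : ∀ m, ContinuousAt (A m) 1 := by
    intro m
    cases m with
    | zero => exact h0
    | succ m => exact (hd m 1).continuousAt
  have main : ∀ i m, m + i = l → A m 1 = 0 := by
    intro i
    induction i using Nat.strong_induction_on with
    | _ i ih =>
      intro m hm
      have hz : ∀ j, m < j → j ≤ l → A j 1 = 0 := fun j h1 h2 =>
        ih (l - j) (by omega) j (by omega)
      have p1 := van_pos A l m C δ hδ (by omega) hd (hc m)
        (fun t ht => (le_abs_self _).trans (hO t ht)) hz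
      have p2 := van_pos (fun m t => -A m t) l m C δ hδ (by omega)
        (fun m t => by
          have := (hd m t).neg
          rw [← mul_neg] at this
          exact this) (hc m).neg
        (fun t ht => by
          have := (neg_le_abs _).trans (hO t ht)
          linarith) (fun j h1 h2 => by rw [hz j h1 h2, neg_zero])
      linarith
  intro m hm
  exact main (l - m) m (by omega)

end Pool.Agent.MP_66cee2_co.H75
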